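import Pool.Agent.H82.G4.Targets

/-!
# Cells and decomposition into caps
-/

set_option autoImplicit false

namespace Pool.Agent.H5.G4.Cell

open MeasureTheory Set Pool.Agent.H83.G Pool.Agent.H82.G4
open scoped ENNReal NNReal RealInnerProductSpace

theorem cb_near {m : ℕ} (hCBN : T_CBN) (K : ℝ) (hK : 1 ≤ K) (z : Z m) :
    ‖K⁻¹ ^ 2 • z - zc (cb (K ^ 2) z)‖ ≤ (m : ℝ) + 1 := by
  have hK0 : 0 < K := by linarith
  have h := (hCBN m).1 (K ^ 2) z (by positivity)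
  have h1 : K⁻¹ ^ 2 • z - zc (cb (K ^ 2) z) = K⁻¹ ^ 2 • (z - K ^ 2 • zc (cb (K ^ 2) z)) := by
    rw [smul_sub, smul_smul]
    have : K⁻¹ ^ 2 * K ^ 2 = 1 := by
      rw [← mul_pow, inv_mul_cancel₀ hK0.ne', one_pow]
    rw [this, one_smul]
  rw [h1, norm_smul, Real.norm_of_nonneg (by positivity)]
  calc K⁻¹ ^ 2 * ‖z - K ^ 2 • zc (cb (K ^ 2) z)‖ ≤ K⁻¹ ^ 2 * (((m : ℝ) + 1) * K ^ 2) :=
        mul_le_mul_of_nonneg_left h (by positivity)
    _ = (m : ℝ) + 1 := by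
        field_simp

/-- sums over the points of a separated set -/
theorem cell_sum (hWT3 : T_WT3) (hCBN : T_CBN) (m : ℕ) : ∃ C : ℝ, 0 < C ∧
    ∀ (K : ℝ) (X : Finset (Z m)) (f : Zi m → ℝ≥0∞), 1 ≤ K → Sep X →
    ∑ z ∈ X, f (cb (K ^ 2) z) ≤
      ENNReal.ofReal (C * K ^ (2 * (m + 3))) * ∑ j ∈ X.image (cb (K ^ 2)), f j := by
  obtain ⟨C, -, -, -, hX, -⟩ := hWT3 m (m + 3) le_rfl
  refine ⟨((C : ℝ) + 1) * ((m : ℝ) + 2) ^ (m + 3), by positivity, ?_⟩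
  intro K X f hK hsep
  have hK0 : 0 < K := by linarith
  rw [Finset.sum_comp f (cb (K ^ 2)), Finset.mul_sum]
  refine Finset.sum_le_sum fun j _ => ?_
  rw [nsmul_eq_mul]
  refine mul_le_mul_left ?_ _
  have h1 := hX X (K ^ 2 • zc j) hsep
  have h2 : ∀ z ∈ X.filter (fun a => cb (K ^ 2) a = j),
      ENNReal.ofReal ((((m : ℝ) + 2) * K ^ 2) ^ (m + 3))⁻¹ ≤
        ENNReal.ofReal (wt (m + 3) (z - K ^ 2 • zc j)) := by
    intro z hz
    rw [Finset.mem_filter] at hz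
    refine ENNReal.ofReal_le_ofReal ?_
    have h3 := (hCBN m).1 (K ^ 2) z (by positivity)
    rw [hz.2] at h3
    unfold wt
    refine inv_anti₀ (by positivity) (pow_le_pow_left₀ (by positivity) ?_ _)
    have h4 : 1 ≤ K ^ 2 := one_le_pow₀ hK
    linarith
  have h3 : ((X.filter (fun a => cb (K ^ 2) a = j)).card : ℝ≥0∞) *
      ENNReal.ofReal ((((m : ℝ) + 2) * K ^ 2) ^ (m + 3))⁻¹ ≤ C := by
    calc _ = ∑ z ∈ X.filter (fun a => cb (K ^ 2) a = j),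
          ENNReal.ofReal ((((m : ℝ) + 2) * K ^ 2) ^ (m + 3))⁻¹ := by
            rw [Finset.sum_const, nsmul_eq_mul]
      _ ≤ ∑ z ∈ X.filter (fun a => cb (K ^ 2) a = j),
          ENNReal.ofReal (wt (m + 3) (z - K ^ 2 • zc j)) := Finset.sum_le_sum h2
      _ ≤ ∑ z ∈ X, ENNReal.ofReal (wt (m + 3) (z - K ^ 2 • zc j)) :=
            Finset.sum_le_sum_of_subset (Finset.filter_subset _ _)
      _ ≤ C := h1
  set c : ℝ := (((m : ℝ) + 2) * K ^ 2) ^ (m + 3) with hc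
  have hc0 : 0 < c := by positivity
  calc ((X.filter (fun a => cb (K ^ 2) a = j)).card : ℝ≥0∞)
      = ((X.filter (fun a => cb (K ^ 2) a = j)).card : ℝ≥0∞) * ENNReal.ofReal c⁻¹ *
        ENNReal.ofReal c := by
          rw [mul_assoc, ← ENNReal.ofReal_mul (by positivity), inv_mul_cancel₀ hc0.ne',
            ENNReal.ofReal_one, mul_one]
    _ ≤ C * ENNReal.ofReal c := mul_le_mul_left h3 _
    _ ≤ ENNReal.ofReal ((C : ℝ) + 1) * ENNReal.ofReal c := by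
        refine mul_le_mul_left ?_ _
        rw [← ENNReal.ofReal_coe_nnreal]
        exact ENNReal.ofReal_le_ofReal (by linarith)
    _ = _ := by
        rw [← ENNReal.ofReal_mul (by positivity)]
        congr 1
        rw [hc, mul_pow, ← pow_mul]
        ring

private theorem norm_e (x : ℝ) : ‖e x‖ = 1 := by
  unfold e
  exact Complex.norm_exp_ofReal_mul_I _

private theorem continuous_e : Continuous e := by
  unfold e
  fun_prop

private theorem continuous_ph {m : ℕ} : Continuous (fun p : Z m × Z m => ph p.1 p.2) := by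
  unfold ph
  fun_prop

/-- decomposition into caps -/
theorem TF_sum {m : ℕ} (hPUS : T_PUS) (hCPS : T_CPS) (β : E m → ℂ) (hβ : IsPU β) (K : ℝ)
    (hK : 1 ≤ K) (G : Z m → ℂ) (hG : TC G)
    (hs : ∀ ζ, G ζ ≠ 0 → 1 / 4 ≤ ζ.1 ∧ ‖ζ.1⁻¹ • ζ.2.1‖ ≤ 3 / 2) (z : Z m) :
    TF G z = ∑ k ∈ Ks m K⁻¹, uk β K G k z := by
  have hK0 : 0 < K⁻¹ := by
    have : 0 < K := by linarith
    positivity
  have hK1 : K⁻¹ ≤ 1 := inv_le_one_of_one_le₀ hK
  have hpu := ((hPUS m).1 β K⁻¹ hβ hK0).2 hK1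
  have htc : ∀ k, TC fun ζ => cp β (ctr K⁻¹ k) K⁻¹ ζ * G ζ := fun k =>
    hCPS m β (ctr K⁻¹ k) K⁻¹ G hβ.1 hK0 hG (fun ζ hζ => (hs ζ hζ).1)
  change (∫ ζ : Z m, e (ph z ζ) * G ζ) = ∑ k ∈ Ks m K⁻¹,
    ∫ ζ : Z m, e (ph z ζ) * (cp β (ctr K⁻¹ k) K⁻¹ ζ * G ζ)
  rw [← integral_finsetSum]
  · refine integral_congr_ae (Filter.Eventually.of_forall fun ζ => ?_)
    change e (ph z ζ) * G ζ = ∑ k ∈ Ks m K⁻¹, e (ph z ζ) * (cp β (ctr K⁻¹ k) K⁻¹ ζ * G ζ)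
    by_cases h0 : G ζ = 0
    · simp [h0]
    · have h1 := hpu ζ (hs ζ h0).2
      calc e (ph z ζ) * G ζ = e (ph z ζ) * ((∑ k ∈ Ks m K⁻¹, cp β (ctr K⁻¹ k) K⁻¹ ζ) * G ζ) := by
            rw [h1, one_mul]
        _ = _ := by rw [Finset.sum_mul, Finset.mul_sum]
  · intro k _
    refine Continuous.integrable_of_hasCompactSupport ?_ (htc k).2.mul_left
    exact (continuous_e.comp (continuous_ph.comp (by fun_prop :
      Continuous fun ζ : Z m => (z, ζ)))).mul (htc k).1.continuous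

/-- the value at a point is at most the supremum on the cell -/
theorem le_Mj {m : ℕ} (hCBN : T_CBN) (K : ℝ) (hK : 1 ≤ K) (f : Z m → ℂ) (z : Z m) :
    ‖f z‖ₑ ≤ Mj K f (cb (K ^ 2) z) := by
  unfold Mj
  exact le_iSup₂_of_le z (cb_near hCBN K hK z) le_rfl

theorem le_SX {m : ℕ} (P : ℝ) (f : Z m → ℂ) (X : Finset (Z m)) (hX : Sep X) :
    ∑ z ∈ X, ‖f z‖ₑ ^ P ≤ SX P f := by
  unfold SX
  exact le_iSup₂_of_le X hX le_rfl

end Pool.Agent.H5.G4.Cell
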