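import Pool.Agent.H5.G4.Cell

/-!
# The significant caps are near two directions
-/

set_option autoImplicit false

namespace Pool.Agent.H5.G4.PTA

open MeasureTheory Set Pool.Agent.H83.G Pool.Agent.H82.G4 Pool.Agent.H5.G4.Cell
open scoped ENNReal NNReal RealInnerProductSpace

theorem pf_PTA (hSIG : T_SIG) (hSXB : T_SXB) (hPUS : T_PUS) (hCBN : T_CBN) (hCPS : T_CPS)
    (_hSCH : T_SCH) (hWT3 : T_WT3) : T_PTA := by
  classical
  intro m N P β hm hP hβ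
  obtain ⟨CS, hsig⟩ := hSIG m N β hβ
  obtain ⟨CB, hsxb⟩ := hSXB m P (by linarith)
  obtain ⟨-, -, CP, hCP, hcard, hcount, -⟩ := hPUS m
  obtain ⟨CC, hCC, hcell⟩ := cell_sum hWT3 hCBN m
  have hP0 : 0 ≤ P := by linarith
  have hP1 : 1 ≤ P := by linarith
  -- constants
  set NA : ℝ := 2 * (CP * (1 + 4) ^ m) with hNA
  have hNA0 : 0 < NA := by positivity
  set B0 : ℝ := CS * CP ^ 2 with hB0
  have hB00 : 0 ≤ B0 := by positivity
  refine ⟨2 ^ (P - 1) * NA ^ (P - 1) + 2 ^ (P - 1) * B0 ^ P * CC * CB + 1, by positivity, ?_⟩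
  intro K₁ K G X hK1 hK1K hG hs hX hk
  have hK : 1 ≤ K := hK1.trans hK1K
  have hK0 : 0 < K := by linarith
  have hK10 : 0 < K₁ := by linarith
  have hs4 : ∀ ζ, G ζ ≠ 0 → 1 / 4 ≤ ζ.1 ∧ ‖ζ.1⁻¹ • ζ.2.1‖ ≤ 3 / 2 := by
    intro ζ hζ
    obtain ⟨h1, h2, h3⟩ := hs ζ hζ
    refine ⟨by linarith, ?_⟩
    have h4 : 0 < ζ.1 := by linarith
    rw [norm_smul, Real.norm_of_nonneg (by positivity)]
    calc ζ.1⁻¹ * ‖ζ.2.1‖ ≤ ζ.1⁻¹ * (3 / 2 * ζ.1) := mul_le_mul_of_nonneg_left h3 (by positivity)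
      _ = 3 / 2 := by field_simp
  have hKi0 : 0 < K⁻¹ := by positivity
  have hKi1 : K⁻¹ ≤ 1 := inv_le_one_of_one_le₀ hK
  have hK1i0 : 0 < K₁⁻¹ := by positivity
  have hK1i1 : K₁⁻¹ ≤ 1 := inv_le_one_of_one_le₀ hK1
  -- pointwise bound
  have hpt : ∀ z ∈ X, ‖TF G z‖ₑ ^ P ≤
      ENNReal.ofReal (2 ^ (P - 1) * NA ^ (P - 1)) * ∑ k ∈ Ks m K₁⁻¹, ‖uk β K₁ G k z‖ₑ ^ P +
      ENNReal.ofReal (2 ^ (P - 1) * (B0 * (K ^ (2 * m + 8))⁻¹) ^ P) *
        Mj K (TF G) (cb (K ^ 2) z) ^ P := by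
    intro z hz
    obtain ⟨η₁, η₂, hη⟩ := hk z hz
    set j := cb (K ^ 2) z with hj
    set M := Mj K (TF G) j with hM
    set T : (Fin m → ℤ) → Prop := fun k' => ‖ctr K₁⁻¹ k' - η₁‖ ≤ 4 * K₁⁻¹ ∨
      ‖ctr K₁⁻¹ k' - η₂‖ ≤ 4 * K₁⁻¹ with hT
    have hdec : TF G z = (∑ k ∈ (Ks m K₁⁻¹).filter T, uk β K₁ G k z) +
        ∑ k ∈ (Ks m K₁⁻¹).filter (fun k => ¬ T k), uk β K₁ G k z := by
      rw [Finset.sum_filter_add_sum_filter_not]
      exact TF_sum hPUS hCPS β hβ K₁ hK1 G hG hs4 z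
    -- the far caps
    have hfar : ∀ k' ∈ (Ks m K₁⁻¹).filter (fun k => ¬ T k), ‖uk β K₁ G k' z‖ₑ ≤
        ENNReal.ofReal (CS * (CP * K ^ m) * (K ^ (4 * m + 8))⁻¹) * M := by
      intro k' hk'
      rw [Finset.mem_filter] at hk'
      obtain ⟨hk'1, hk'2⟩ := hk'
      rw [hT] at hk'2
      push Not at hk'2
      have h1 := hsig K₁ K G j z k' hK1 hK1K hG hs (cb_near hCBN K hK z) hk'1
      have h2 : ∀ k ∈ (Ks m K⁻¹).filter (fun k => ‖ctr K⁻¹ k - ctr K₁⁻¹ k'‖ ≤ 2 / K₁),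
          aw N K 0 (uk β K G k) j ≤ ENNReal.ofReal ((K ^ (4 * m + 8))⁻¹) * M := by
        intro k hk
        rw [Finset.mem_filter] at hk
        have hnS : k ∉ Sg β N K G j := by
          intro hS
          have h3 := hη k hS
          have h4 : ∀ η : E m, ‖ctr K₁⁻¹ k' - η‖ ≤ ‖ctr K⁻¹ k - ctr K₁⁻¹ k'‖ +
              ‖ctr K⁻¹ k - η‖ := by
            intro η
            have h5 : ctr K₁⁻¹ k' - η = -(ctr K⁻¹ k - ctr K₁⁻¹ k') + (ctr K⁻¹ k - η) := by abel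
            rw [h5]
            refine (norm_add_le _ _).trans ?_
            rw [norm_neg]
          have h6 : ‖ctr K⁻¹ k - ctr K₁⁻¹ k'‖ ≤ 2 * K₁⁻¹ := by
            have := hk.2
            rwa [div_eq_mul_inv] at this
          rcases h3 with h3 | h3
          · linarith [h4 η₁, hk'2.1]
          · linarith [h4 η₂, hk'2.2]
        unfold Sg at hnS
        rw [Finset.mem_filter, not_and] at hnS
        exact (not_le.mp (hnS hk.1)).le
      have hc1 := hcard K⁻¹ hKi0 hKi1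
      rw [inv_inv] at hc1
      calc ‖uk β K₁ G k' z‖ₑ ≤ CS * ∑ k ∈ (Ks m K⁻¹).filter
            (fun k => ‖ctr K⁻¹ k - ctr K₁⁻¹ k'‖ ≤ 2 / K₁), aw N K 0 (uk β K G k) j := h1
        _ ≤ CS * ∑ k ∈ (Ks m K⁻¹).filter (fun k => ‖ctr K⁻¹ k - ctr K₁⁻¹ k'‖ ≤ 2 / K₁),
            ENNReal.ofReal ((K ^ (4 * m + 8))⁻¹) * M := mul_le_mul_right (Finset.sum_le_sum h2) _
        _ ≤ CS * ∑ k ∈ Ks m K⁻¹, ENNReal.ofReal ((K ^ (4 * m + 8))⁻¹) * M :=
            mul_le_mul_right (Finset.sum_le_sum_of_subset (Finset.filter_subset _ _)) _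
        _ = CS * (((Ks m K⁻¹).card : ℝ≥0∞) * (ENNReal.ofReal ((K ^ (4 * m + 8))⁻¹) * M)) := by
            rw [Finset.sum_const, nsmul_eq_mul]
        _ ≤ CS * (ENNReal.ofReal (CP * K ^ m) * (ENNReal.ofReal ((K ^ (4 * m + 8))⁻¹) * M)) := by
            refine mul_le_mul_right (mul_le_mul_left ?_ _) _
            rw [← ENNReal.ofReal_natCast]
            exact ENNReal.ofReal_le_ofReal hc1
        _ = _ := by
            rw [← ENNReal.ofReal_coe_nnreal, ← mul_assoc, ← mul_assoc,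
              ← ENNReal.ofReal_mul (by positivity), ← ENNReal.ofReal_mul (by positivity)]
    have hfar2 : ‖∑ k ∈ (Ks m K₁⁻¹).filter (fun k => ¬ T k), uk β K₁ G k z‖ₑ ≤
        ENNReal.ofReal (B0 * (K ^ (2 * m + 8))⁻¹) * M := by
      have hc2 := hcard K₁⁻¹ hK1i0 hK1i1
      rw [inv_inv] at hc2
      have hc3 : ((Ks m K₁⁻¹).card : ℝ) ≤ CP * K ^ m :=
        hc2.trans (mul_le_mul_of_nonneg_left (pow_le_pow_left₀ hK10.le hK1K m) hCP.le)
      calc _ ≤ ∑ k ∈ (Ks m K₁⁻¹).filter (fun k => ¬ T k), ‖uk β K₁ G k z‖ₑ :=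
            enorm_sum_le _ _
        _ ≤ ∑ k ∈ (Ks m K₁⁻¹).filter (fun k => ¬ T k),
            ENNReal.ofReal (CS * (CP * K ^ m) * (K ^ (4 * m + 8))⁻¹) * M :=
            Finset.sum_le_sum hfar
        _ ≤ ∑ k ∈ Ks m K₁⁻¹,
            ENNReal.ofReal (CS * (CP * K ^ m) * (K ^ (4 * m + 8))⁻¹) * M :=
            Finset.sum_le_sum_of_subset (Finset.filter_subset _ _)
        _ = ((Ks m K₁⁻¹).card : ℝ≥0∞) *
            (ENNReal.ofReal (CS * (CP * K ^ m) * (K ^ (4 * m + 8))⁻¹) * M) := by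
            rw [Finset.sum_const, nsmul_eq_mul]
        _ ≤ ENNReal.ofReal (CP * K ^ m) *
            (ENNReal.ofReal (CS * (CP * K ^ m) * (K ^ (4 * m + 8))⁻¹) * M) := by
            refine mul_le_mul_left ?_ _
            rw [← ENNReal.ofReal_natCast]
            exact ENNReal.ofReal_le_ofReal hc3
        _ = _ := by
            rw [← mul_assoc, ← ENNReal.ofReal_mul (by positivity)]
            congr 2
            have h7 : K ^ (4 * m + 8) = K ^ m * K ^ m * K ^ (2 * m + 8) := by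
              rw [← pow_add, ← pow_add]
              congr 1
              ring
            rw [h7, hB0]
            have h8 : K ^ m ≠ 0 := by positivity
            have h9 : K ^ (2 * m + 8) ≠ 0 := by positivity
            field_simp
    -- the near caps
    have hAcard : (((Ks m K₁⁻¹).filter T).card : ℝ) ≤ NA := by
      have h1 : ∀ η : E m, (((Ks m K₁⁻¹).filter
          (fun k' => ‖ctr K₁⁻¹ k' - η‖ ≤ 4 * K₁⁻¹)).card : ℝ) ≤ CP * (1 + 4) ^ m := by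
        intro η
        have h2 := hcount K₁⁻¹ (4 * K₁⁻¹) η ((Ks m K₁⁻¹).filter
          (fun k' => ‖ctr K₁⁻¹ k' - η‖ ≤ 4 * K₁⁻¹)) hK1i0 (by positivity)
          (fun k hk => (Finset.mem_filter.mp hk).2)
        have h3 : 4 * K₁⁻¹ / K₁⁻¹ = 4 := by field_simp
        rwa [h3] at h2
      have h4 : (Ks m K₁⁻¹).filter T ⊆ (Ks m K₁⁻¹).filter
          (fun k' => ‖ctr K₁⁻¹ k' - η₁‖ ≤ 4 * K₁⁻¹) ∪ (Ks m K₁⁻¹).filter
          (fun k' => ‖ctr K₁⁻¹ k' - η₂‖ ≤ 4 * K₁⁻¹) := by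
        intro k hk
        rw [Finset.mem_filter] at hk
        rw [Finset.mem_union, Finset.mem_filter, Finset.mem_filter]
        rcases hk.2 with h | h
        · exact Or.inl ⟨hk.1, h⟩
        · exact Or.inr ⟨hk.1, h⟩
      have h5 := (Finset.card_le_card h4).trans (Finset.card_union_le _ _)
      have h6 : (((Ks m K₁⁻¹).filter T).card : ℝ) ≤
          (((Ks m K₁⁻¹).filter (fun k' => ‖ctr K₁⁻¹ k' - η₁‖ ≤ 4 * K₁⁻¹)).card : ℝ) +
          (((Ks m K₁⁻¹).filter (fun k' => ‖ctr K₁⁻¹ k' - η₂‖ ≤ 4 * K₁⁻¹)).card : ℝ) := by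
        exact_mod_cast h5
      have h7 := h1 η₁
      have h8 := h1 η₂
      rw [hNA]
      linarith
    have hnear : ‖∑ k ∈ (Ks m K₁⁻¹).filter T, uk β K₁ G k z‖ₑ ^ P ≤
        ENNReal.ofReal (NA ^ (P - 1)) * ∑ k ∈ Ks m K₁⁻¹, ‖uk β K₁ G k z‖ₑ ^ P := by
      calc _ ≤ (∑ k ∈ (Ks m K₁⁻¹).filter T, ‖uk β K₁ G k z‖ₑ) ^ P :=
            ENNReal.rpow_le_rpow (enorm_sum_le _ _) hP0
        _ ≤ (((Ks m K₁⁻¹).filter T).card : ℝ≥0∞) ^ (P - 1) *
            ∑ k ∈ (Ks m K₁⁻¹).filter T, ‖uk β K₁ G k z‖ₑ ^ P :=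
            ENNReal.rpow_sum_le_const_mul_sum_rpow _ _ hP1
        _ ≤ ENNReal.ofReal (NA ^ (P - 1)) * ∑ k ∈ Ks m K₁⁻¹, ‖uk β K₁ G k z‖ₑ ^ P := by
            refine mul_le_mul' ?_ (Finset.sum_le_sum_of_subset (Finset.filter_subset _ _))
            rw [← ENNReal.ofReal_rpow_of_nonneg hNA0.le (by linarith)]
            refine ENNReal.rpow_le_rpow ?_ (by linarith)
            rw [← ENNReal.ofReal_natCast]
            exact ENNReal.ofReal_le_ofReal hAcard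
    have h2P : (2 : ℝ≥0∞) ^ (P - 1) = ENNReal.ofReal (2 ^ (P - 1)) := by
      rw [← ENNReal.ofReal_rpow_of_nonneg (by norm_num) (by linarith)]
      norm_num
    calc ‖TF G z‖ₑ ^ P ≤ (‖∑ k ∈ (Ks m K₁⁻¹).filter T, uk β K₁ G k z‖ₑ +
          ‖∑ k ∈ (Ks m K₁⁻¹).filter (fun k => ¬ T k), uk β K₁ G k z‖ₑ) ^ P := by
          rw [hdec]
          exact ENNReal.rpow_le_rpow (enorm_add_le _ _) hP0
      _ ≤ 2 ^ (P - 1) * (‖∑ k ∈ (Ks m K₁⁻¹).filter T, uk β K₁ G k z‖ₑ ^ P +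
          ‖∑ k ∈ (Ks m K₁⁻¹).filter (fun k => ¬ T k), uk β K₁ G k z‖ₑ ^ P) :=
          ENNReal.rpow_add_le_mul_rpow_add_rpow _ _ hP1
      _ ≤ 2 ^ (P - 1) * (ENNReal.ofReal (NA ^ (P - 1)) *
          ∑ k ∈ Ks m K₁⁻¹, ‖uk β K₁ G k z‖ₑ ^ P +
          (ENNReal.ofReal (B0 * (K ^ (2 * m + 8))⁻¹) * M) ^ P) := by
          refine mul_le_mul_right (add_le_add hnear ?_) _
          exact ENNReal.rpow_le_rpow hfar2 hP0
      _ = _ := by
          rw [mul_add, ← mul_assoc, ENNReal.mul_rpow_of_nonneg _ _ hP0, ← mul_assoc, h2P,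
            ← ENNReal.ofReal_mul (by positivity),
            ENNReal.ofReal_rpow_of_nonneg (by positivity) hP0,
            ← ENNReal.ofReal_mul (by positivity)]
  -- summation
  have hfin : (2 : ℝ) ^ (P - 1) * (B0 * (K ^ (2 * m + 8))⁻¹) ^ P * (CC * K ^ (2 * (m + 3))) * CB ≤
      (2 ^ (P - 1) * NA ^ (P - 1) + 2 ^ (P - 1) * B0 ^ P * CC * CB + 1) * (K ^ 4)⁻¹ := by
    have h1 : ((K ^ (2 * m + 8))⁻¹ : ℝ) ^ P ≤ ((K ^ (2 * m + 8))⁻¹) ^ (2 : ℝ) := by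
      refine Real.rpow_le_rpow_of_exponent_ge (by positivity) ?_ hP
      exact inv_le_one_of_one_le₀ (one_le_pow₀ hK)
    have h2 : ((K ^ (2 * m + 8))⁻¹ : ℝ) ^ (2 : ℝ) = ((K ^ (2 * m + 8))⁻¹) ^ 2 := by
      rw [← Real.rpow_natCast]
      norm_num
    rw [h2] at h1
    have h3 : ((K ^ (2 * m + 8))⁻¹) ^ 2 * K ^ (2 * (m + 3)) ≤ (K ^ 4)⁻¹ := by
      rw [inv_pow, ← pow_mul, inv_mul_le_iff₀ (by positivity), ← div_eq_mul_inv,
        le_div_iff₀ (by positivity), ← pow_add]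
      exact pow_le_pow_right₀ hK (by ring_nf; omega)
    rw [Real.mul_rpow hB00 (by positivity)]
    have h4 : 0 ≤ (2 : ℝ) ^ (P - 1) * B0 ^ P * CC * CB := by positivity
    calc (2 : ℝ) ^ (P - 1) * (B0 ^ P * ((K ^ (2 * m + 8))⁻¹) ^ P) * (CC * K ^ (2 * (m + 3))) * CB
        = (2 ^ (P - 1) * B0 ^ P * CC * CB) *
          (((K ^ (2 * m + 8))⁻¹) ^ P * K ^ (2 * (m + 3))) := by ring
      _ ≤ (2 ^ (P - 1) * B0 ^ P * CC * CB) *
          (((K ^ (2 * m + 8))⁻¹) ^ 2 * K ^ (2 * (m + 3))) := by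
          refine mul_le_mul_of_nonneg_left ?_ h4
          exact mul_le_mul_of_nonneg_right h1 (by positivity)
      _ ≤ (2 ^ (P - 1) * B0 ^ P * CC * CB) * (K ^ 4)⁻¹ := mul_le_mul_of_nonneg_left h3 h4
      _ ≤ _ := by
          refine mul_le_mul_of_nonneg_right ?_ (by positivity)
          have : 0 ≤ (2 : ℝ) ^ (P - 1) * NA ^ (P - 1) := by positivity
          linarith
  calc ∑ z ∈ X, ‖TF G z‖ₑ ^ P ≤ ∑ z ∈ X,
        (ENNReal.ofReal (2 ^ (P - 1) * NA ^ (P - 1)) * ∑ k ∈ Ks m K₁⁻¹, ‖uk β K₁ G k z‖ₑ ^ P +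
        ENNReal.ofReal (2 ^ (P - 1) * (B0 * (K ^ (2 * m + 8))⁻¹) ^ P) *
          Mj K (TF G) (cb (K ^ 2) z) ^ P) := Finset.sum_le_sum hpt
    _ = ENNReal.ofReal (2 ^ (P - 1) * NA ^ (P - 1)) *
          ∑ k ∈ Ks m K₁⁻¹, ∑ z ∈ X, ‖uk β K₁ G k z‖ₑ ^ P +
        ENNReal.ofReal (2 ^ (P - 1) * (B0 * (K ^ (2 * m + 8))⁻¹) ^ P) *
          ∑ z ∈ X, Mj K (TF G) (cb (K ^ 2) z) ^ P := by
        rw [Finset.sum_add_distrib, ← Finset.mul_sum, ← Finset.mul_sum, Finset.sum_comm]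
    _ ≤ ENNReal.ofReal (2 ^ (P - 1) * NA ^ (P - 1)) *
          ∑ k ∈ Ks m K₁⁻¹, SX P (uk β K₁ G k) +
        ENNReal.ofReal (2 ^ (P - 1) * (B0 * (K ^ (2 * m + 8))⁻¹) ^ P) *
          (ENNReal.ofReal (CC * K ^ (2 * (m + 3))) * (CB * SX P (TF G))) := by
        refine add_le_add (mul_le_mul_right (Finset.sum_le_sum fun k _ => le_SX P _ X hX) _)
          (mul_le_mul_right ?_ _)
        refine (hcell K X (fun j => Mj K (TF G) j ^ P) hK hX).trans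
          (mul_le_mul_right ?_ _)
        exact (ENNReal.sum_le_tsum _).trans (hsxb K (TF G) hK)
    _ ≤ _ := by
        refine add_le_add (mul_le_mul_left (ENNReal.ofReal_le_ofReal ?_) _) ?_
        · have : 0 ≤ (2 : ℝ) ^ (P - 1) * B0 ^ P * CC * CB := by positivity
          linarith
        · rw [← mul_assoc, ← mul_assoc, ← ENNReal.ofReal_mul (by positivity),
            ← ENNReal.ofReal_coe_nnreal, ← ENNReal.ofReal_mul (by positivity)]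
          exact mul_le_mul_left (ENNReal.ofReal_le_ofReal hfin) _

end Pool.Agent.H5.G4.PTA
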