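import Pool.Agent.H5.G4.Cell

/-!
# There are significant caps with a property
-/

set_option autoImplicit false

namespace Pool.Agent.H5.G4.PTC

open MeasureTheory Set Pool.Agent.H83.G Pool.Agent.H82.G4 Pool.Agent.H5.G4.Cell
open scoped ENNReal NNReal RealInnerProductSpace

private theorem zc_sep {m : ℕ} (j j' : Zi m) (h : j ≠ j') : 1 ≤ ‖zc j - zc j'‖ := by
  have hint : ∀ a b : ℤ, a ≠ b → (1 : ℝ) ≤ |(a : ℝ) - b| := by
    intro a b hab
    have h1 : (1 : ℤ) ≤ |a - b| := Int.one_le_abs (sub_ne_zero.mpr hab)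
    have h2 : ((1 : ℤ) : ℝ) ≤ ((|a - b| : ℤ) : ℝ) := by exact_mod_cast h1
    simpa using h2
  by_cases h1 : j.1 = j'.1
  · by_cases h2 : j.2.2 = j'.2.2
    · have h3 : j.2.1 ≠ j'.2.1 := by
        intro h3
        exact h (Prod.ext h1 (Prod.ext h3 h2))
      obtain ⟨i, hi⟩ := Function.ne_iff.mp h3
      have h4 : |((j.2.1 i : ℤ) : ℝ) - (j'.2.1 i : ℝ)| ≤ ‖(zc j - zc j').2.1‖ :=
        PiLp.norm_apply_le (zc j - zc j').2.1 i
      exact (hint _ _ hi).trans (h4.trans ((norm_fst_le (zc j - zc j').2).trans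
        (norm_snd_le (zc j - zc j'))))
    · have h4 : |((j.2.2 : ℤ) : ℝ) - (j'.2.2 : ℝ)| ≤ ‖(zc j - zc j').2.2‖ := le_refl _
      exact (hint _ _ h2).trans (h4.trans ((norm_snd_le (zc j - zc j').2).trans
        (norm_snd_le (zc j - zc j'))))
  · have h4 : |((j.1 : ℤ) : ℝ) - (j'.1 : ℝ)| ≤ ‖(zc j - zc j').1‖ := le_refl _
    exact (hint _ _ h1).trans (h4.trans (norm_fst_le (zc j - zc j')))

private theorem finite_zc {m : ℕ} (hCBN : T_CBN) (r : ℝ) (hr : 1 ≤ r) :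
    {l : Zi m | ‖zc l‖ ≤ r}.Finite := by
  obtain ⟨-, -, C, hC, hcard, -⟩ := hCBN m
  by_contra hinf
  obtain ⟨J, hJ, hJc⟩ := Set.Infinite.exists_subset_card_eq hinf (⌊C * r ^ (m + 2)⌋₊ + 1)
  have h1 := hcard r 0 J hr (fun j hj => by
    rw [sub_zero]
    exact hJ hj)
  rw [hJc] at h1
  have h2 := Nat.lt_floor_add_one (C * r ^ (m + 2))
  push_cast at h1
  linarith

theorem pf_PTC (hQNT : T_QNT) (hSXF : T_SXF) (hSXK : T_SXK) (hPUS : T_PUS) (hCBN : T_CBN)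
    (hCPS : T_CPS) (hWT3 : T_WT3) : T_PTC := by
  classical
  intro m n P β hm hP hβ
  refine ⟨(m + 3) + (3 * m + 10 + (4 * m + 8) * ⌈P⌉₊), fun N hN => ?_⟩
  obtain ⟨c, CQ, hc, hCQ, hqnt⟩ := hQNT m N 10
  obtain ⟨CF, hCF, hsxf⟩ := hSXF m N P (by omega) (by linarith)
  obtain ⟨CK, hsxk⟩ := hSXK m P β (by linarith) hβ
  obtain ⟨-, -, CP, hCP, hcard, -, -⟩ := hPUS m
  obtain ⟨CC, hCC, hcell⟩ := cell_sum hWT3 hCBN m
  have hP0 : 0 ≤ P := by linarith
  have hP1 : 1 ≤ P := by linarith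
  refine ⟨2 ^ P * CP * CC * CF * CK + 1, by positivity, fun K hK => ?_⟩
  have hK0 : 0 < K := by linarith
  have hr : 1 ≤ CQ * K * K ^ 2 := by
    have h1 : 1 ≤ CQ * K := one_le_mul_of_one_le_of_one_le hCQ hK
    exact one_le_mul_of_one_le_of_one_le h1 (one_le_pow₀ hK)
  set L : Finset (Zi m) := (finite_zc hCBN (CQ * K * K ^ 2) hr).toFinset with hL
  set F₀ : Finset ((Fin n → Fin m → ℤ) × (Fin n → Zi m)) :=
    (Fintype.piFinset fun _ : Fin n => Ks m K⁻¹) ×ˢ (Fintype.piFinset fun _ : Fin n => L) with hF0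
  set A1 : ℝ := (2 * K ^ (4 * m + 8)) ^ P with hA1
  set A2 : ℝ := (K ^ (4 * m + 8) * CQ) ^ P with hA2
  have hA10 : 0 ≤ A1 := by positivity
  have hA20 : 0 ≤ A2 := by positivity
  refine ⟨1 + c * (CQ * K * K ^ 2) + A2 * (F₀.card * (CC * K ^ (2 * (m + 3)))), ?_, ?_⟩
  · have h1 : 0 ≤ c * (CQ * K * K ^ 2) := by positivity
    have h2 : 0 ≤ A2 * (F₀.card * (CC * K ^ (2 * (m + 3)))) := by positivity
    linarith
  intro G X Q W hG hs hX hkS hW
  have hKi0 : 0 < K⁻¹ := by positivity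
  have hKi1 : K⁻¹ ≤ 1 := inv_le_one_of_one_le₀ hK
  have hs4 : ∀ ζ, G ζ ≠ 0 → 1 / 4 ≤ ζ.1 := fun ζ hζ => by
    have := (hs ζ hζ).1
    linarith
  have hs8 : ∀ ζ, G ζ ≠ 0 → 1 / 4 ≤ ζ.1 ∧ ζ.1 ≤ 8 := fun ζ hζ => by
    refine ⟨hs4 ζ hζ, ?_⟩
    have h1 := (hs ζ hζ).2.1
    linarith
  set Tm : (Fin n → Fin m → ℤ) × (Fin n → Zi m) → Zi m → ℝ≥0∞ := fun p j =>
    (⨅ i, ‖uk β K G (p.1 i) (K ^ 2 • zc j + c • zc (p.2 i))‖ₑ) ^ P with hTm
  set F := F₀.filter (fun p => Q p.1) with hF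
  -- pointwise bound
  have hpt : ∀ z ∈ X, ‖TF G z‖ₑ ^ P ≤
      ENNReal.ofReal A1 * ∑ k ∈ Ks m K⁻¹, aw N K K (uk β K G k) (cb (K ^ 2) z) ^ P +
      ENNReal.ofReal A2 * ∑ p ∈ F, Tm p (cb (K ^ 2) z) := by
    intro z hz
    obtain ⟨k, hQk, hk⟩ := hkS z hz
    set j := cb (K ^ 2) z with hj
    set M := Mj K (TF G) j with hM
    have hMle : ∀ i, M ≤ ENNReal.ofReal (K ^ (4 * m + 8)) * aw N K 0 (uk β K G (k i)) j := by
      intro i
      have h1 := hk i
      unfold Sg at h1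
      rw [Finset.mem_filter] at h1
      have h2 := h1.2
      calc M = ENNReal.ofReal (K ^ (4 * m + 8)) * (ENNReal.ofReal ((K ^ (4 * m + 8))⁻¹) * M) := by
            rw [← mul_assoc, ← ENNReal.ofReal_mul (by positivity),
              mul_inv_cancel₀ (by positivity), ENNReal.ofReal_one, one_mul]
        _ ≤ _ := mul_le_mul_right h2 _
    have hkK : ∀ i, k i ∈ Ks m K⁻¹ := by
      intro i
      have h1 := hk i
      unfold Sg at h1
      exact (Finset.mem_filter.mp h1).1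
    have hzM : ‖TF G z‖ₑ ^ P ≤ M ^ P := ENNReal.rpow_le_rpow (le_Mj hCBN K hK (TF G) z) hP0
    refine hzM.trans ?_
    by_cases hcase : ∃ i, aw N K 0 (uk β K G (k i)) j ≤ 2 * aw N K K (uk β K G (k i)) j
    · obtain ⟨i, hi⟩ := hcase
      have h1 : M ≤ ENNReal.ofReal (2 * K ^ (4 * m + 8)) * aw N K K (uk β K G (k i)) j := by
        calc M ≤ ENNReal.ofReal (K ^ (4 * m + 8)) * aw N K 0 (uk β K G (k i)) j := hMle i
          _ ≤ ENNReal.ofReal (K ^ (4 * m + 8)) * (2 * aw N K K (uk β K G (k i)) j) :=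
              mul_le_mul_right hi _
          _ = _ := by
              rw [← mul_assoc, ENNReal.ofReal_mul (by norm_num)]
              congr 1
              rw [mul_comm]
              norm_num
      calc M ^ P ≤ (ENNReal.ofReal (2 * K ^ (4 * m + 8)) * aw N K K (uk β K G (k i)) j) ^ P :=
            ENNReal.rpow_le_rpow h1 hP0
        _ = ENNReal.ofReal A1 * aw N K K (uk β K G (k i)) j ^ P := by
            rw [ENNReal.mul_rpow_of_nonneg _ _ hP0, ENNReal.ofReal_rpow_of_nonneg (by positivity)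
              hP0]
        _ ≤ ENNReal.ofReal A1 * ∑ k ∈ Ks m K⁻¹, aw N K K (uk β K G k) j ^ P := by
            refine mul_le_mul_right ?_ _
            exact Finset.single_le_sum (f := fun k => aw N K K (uk β K G k) j ^ P)
              (fun _ _ => zero_le) (hkK i)
        _ ≤ _ := le_self_add
    · push Not at hcase
      have h2 : ∀ i, ∃ l : Zi m, ‖zc l‖ ≤ CQ * K * K ^ 2 ∧ aw N K 0 (uk β K G (k i)) j ≤
          ENNReal.ofReal CQ * ‖uk β K G (k i) (K ^ 2 • zc j + c • zc l)‖ₑ := by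
        intro i
        have h3 := hqnt K K (fun ζ => cp β (ctr K⁻¹ (k i)) K⁻¹ ζ * G ζ) j hK hK
          (hCPS m β (ctr K⁻¹ (k i)) K⁻¹ G hβ.1 hKi0 hG hs4) (fun ζ hζ =>
            (hs ζ (right_ne_zero_of_mul hζ)).2.2)
        rcases h3 with h3 | h3
        · exact absurd (hcase i) (not_lt.mpr h3)
        · exact h3
      choose l hl hl2 using h2
      have hpF : (k, l) ∈ F := by
        rw [hF, Finset.mem_filter, hF0, Finset.mem_product, Fintype.mem_piFinset,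
          Fintype.mem_piFinset]
        refine ⟨⟨hkK, fun i => ?_⟩, hQk⟩
        rw [hL, Set.Finite.mem_toFinset]
        exact hl i
      have h4 : M ≤ ENNReal.ofReal (K ^ (4 * m + 8) * CQ) *
          ⨅ i, ‖uk β K G (k i) (K ^ 2 • zc j + c • zc (l i))‖ₑ := by
        have hne : ENNReal.ofReal (K ^ (4 * m + 8) * CQ) ≠ 0 := by
          rw [Ne, ENNReal.ofReal_eq_zero, not_le]
          positivity
        rw [ENNReal.mul_iInf_of_ne hne ENNReal.ofReal_ne_top]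
        refine le_iInf fun i => ?_
        calc M ≤ ENNReal.ofReal (K ^ (4 * m + 8)) * aw N K 0 (uk β K G (k i)) j := hMle i
          _ ≤ ENNReal.ofReal (K ^ (4 * m + 8)) * (ENNReal.ofReal CQ *
              ‖uk β K G (k i) (K ^ 2 • zc j + c • zc (l i))‖ₑ) := mul_le_mul_right (hl2 i) _
          _ = _ := by rw [← mul_assoc, ← ENNReal.ofReal_mul (by positivity)]
      calc M ^ P ≤ (ENNReal.ofReal (K ^ (4 * m + 8) * CQ) *
            ⨅ i, ‖uk β K G (k i) (K ^ 2 • zc j + c • zc (l i))‖ₑ) ^ P :=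
            ENNReal.rpow_le_rpow h4 hP0
        _ = ENNReal.ofReal A2 * Tm (k, l) j := by
            rw [ENNReal.mul_rpow_of_nonneg _ _ hP0, ENNReal.ofReal_rpow_of_nonneg (by positivity)
              hP0]
        _ ≤ ENNReal.ofReal A2 * ∑ p ∈ F, Tm p j := by
            refine mul_le_mul_right ?_ _
            exact Finset.single_le_sum (f := fun p => Tm p j) (fun _ _ => zero_le) hpF
        _ ≤ _ := le_add_self
  -- first part
  have hone : ∀ k ∈ Ks m K⁻¹, ∑ z ∈ X, aw N K K (uk β K G k) (cb (K ^ 2) z) ^ P ≤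
      ENNReal.ofReal (CC * K ^ (2 * (m + 3)) * (CF * ((1 + K) ^ (N - (m + 3)))⁻¹) * CK) *
        SX P (TF G) := by
    intro k _
    calc _ ≤ ENNReal.ofReal (CC * K ^ (2 * (m + 3))) *
          ∑ j ∈ X.image (cb (K ^ 2)), aw N K K (uk β K G k) j ^ P :=
          hcell K X (fun j => aw N K K (uk β K G k) j ^ P) hK hX
      _ ≤ ENNReal.ofReal (CC * K ^ (2 * (m + 3))) *
          (ENNReal.ofReal (CF * ((1 + K) ^ (N - (m + 3)))⁻¹) * SX P (uk β K G k)) := by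
          refine mul_le_mul_right ?_ _
          exact (ENNReal.sum_le_tsum _).trans (hsxf K K (uk β K G k) hK hK0.le)
      _ ≤ ENNReal.ofReal (CC * K ^ (2 * (m + 3))) *
          (ENNReal.ofReal (CF * ((1 + K) ^ (N - (m + 3)))⁻¹) * (CK * SX P (TF G))) := by
          refine mul_le_mul_right (mul_le_mul_right ?_ _) _
          exact hsxk (ctr K⁻¹ k) K⁻¹ G hKi0 hG hs8
      _ = _ := by
          rw [← ENNReal.ofReal_coe_nnreal, ← mul_assoc, ← mul_assoc,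
            ← ENNReal.ofReal_mul (by positivity), ← ENNReal.ofReal_mul (by positivity)]
  have hfin1 : A1 * (CP * K ^ m * (CC * K ^ (2 * (m + 3)) *
      (CF * ((1 + K) ^ (N - (m + 3)))⁻¹) * CK)) ≤
      (2 ^ P * CP * CC * CF * CK + 1) * (K ^ 4)⁻¹ := by
    have h1 : A1 ≤ 2 ^ P * K ^ ((4 * m + 8) * ⌈P⌉₊) := by
      rw [hA1, Real.mul_rpow (by norm_num) (by positivity)]
      refine mul_le_mul_of_nonneg_left ?_ (by positivity)
      rw [pow_mul K (4 * m + 8) ⌈P⌉₊, ← Real.rpow_natCast (K ^ (4 * m + 8)) ⌈P⌉₊]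
      exact Real.rpow_le_rpow_of_exponent_le (one_le_pow₀ hK) (Nat.le_ceil P)
    have h2 : ((1 + K) ^ (N - (m + 3)))⁻¹ ≤ (K ^ (3 * m + 10 + (4 * m + 8) * ⌈P⌉₊))⁻¹ := by
      refine inv_anti₀ (by positivity) ?_
      calc K ^ (3 * m + 10 + (4 * m + 8) * ⌈P⌉₊) ≤ K ^ (N - (m + 3)) :=
            pow_le_pow_right₀ hK (by omega)
        _ ≤ (1 + K) ^ (N - (m + 3)) := pow_le_pow_left₀ hK0.le (by linarith) _
    have h3 : 0 ≤ (2 : ℝ) ^ P * CP * CC * CF * CK := by positivity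
    have h4 : K ^ ((4 * m + 8) * ⌈P⌉₊) * K ^ m * K ^ (2 * (m + 3)) *
        (K ^ (3 * m + 10 + (4 * m + 8) * ⌈P⌉₊))⁻¹ = (K ^ 4)⁻¹ := by
      have h5 : 3 * m + 10 + (4 * m + 8) * ⌈P⌉₊ = (4 * m + 8) * ⌈P⌉₊ + m + 2 * (m + 3) + 4 := by
        ring
      rw [h5, pow_add K _ 4, pow_add K ((4 * m + 8) * ⌈P⌉₊ + m) (2 * (m + 3)),
        pow_add K ((4 * m + 8) * ⌈P⌉₊) m]
      have h6 : K ^ ((4 * m + 8) * ⌈P⌉₊) ≠ 0 := by positivity
      have h7 : K ^ m ≠ 0 := by positivity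
      have h8 : K ^ (2 * (m + 3)) ≠ 0 := by positivity
      have h9 : K ^ 4 ≠ 0 := by positivity
      field_simp
    calc A1 * (CP * K ^ m * (CC * K ^ (2 * (m + 3)) * (CF * ((1 + K) ^ (N - (m + 3)))⁻¹) * CK))
        ≤ (2 ^ P * K ^ ((4 * m + 8) * ⌈P⌉₊)) * (CP * K ^ m * (CC * K ^ (2 * (m + 3)) *
          (CF * (K ^ (3 * m + 10 + (4 * m + 8) * ⌈P⌉₊))⁻¹) * CK)) := by
          refine mul_le_mul h1 ?_ (by positivity) (by positivity)
          refine mul_le_mul_of_nonneg_left ?_ (by positivity)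
          refine mul_le_mul_of_nonneg_right ?_ (by positivity)
          refine mul_le_mul_of_nonneg_left ?_ (by positivity)
          exact mul_le_mul_of_nonneg_left h2 hCF.le
      _ = (2 ^ P * CP * CC * CF * CK) * (K ^ ((4 * m + 8) * ⌈P⌉₊) * K ^ m * K ^ (2 * (m + 3)) *
          (K ^ (3 * m + 10 + (4 * m + 8) * ⌈P⌉₊))⁻¹) := by ring
      _ = (2 ^ P * CP * CC * CF * CK) * (K ^ 4)⁻¹ := by rw [h4]
      _ ≤ _ := mul_le_mul_of_nonneg_right (by linarith) (by positivity)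
  have hpart1 : ENNReal.ofReal A1 * ∑ k ∈ Ks m K⁻¹, ∑ z ∈ X,
      aw N K K (uk β K G k) (cb (K ^ 2) z) ^ P ≤
      ENNReal.ofReal ((2 ^ P * CP * CC * CF * CK + 1) * (K ^ 4)⁻¹) * SX P (TF G) := by
    have hc1 := hcard K⁻¹ hKi0 hKi1
    rw [inv_inv] at hc1
    calc _ ≤ ENNReal.ofReal A1 * ∑ k ∈ Ks m K⁻¹,
          ENNReal.ofReal (CC * K ^ (2 * (m + 3)) * (CF * ((1 + K) ^ (N - (m + 3)))⁻¹) * CK) *
          SX P (TF G) := mul_le_mul_right (Finset.sum_le_sum hone) _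
      _ = ENNReal.ofReal A1 * (((Ks m K⁻¹).card : ℝ≥0∞) *
          (ENNReal.ofReal (CC * K ^ (2 * (m + 3)) * (CF * ((1 + K) ^ (N - (m + 3)))⁻¹) * CK) *
          SX P (TF G))) := by rw [Finset.sum_const, nsmul_eq_mul]
      _ ≤ ENNReal.ofReal A1 * (ENNReal.ofReal (CP * K ^ m) *
          (ENNReal.ofReal (CC * K ^ (2 * (m + 3)) * (CF * ((1 + K) ^ (N - (m + 3)))⁻¹) * CK) *
          SX P (TF G))) := by
          refine mul_le_mul_right (mul_le_mul_left ?_ _) _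
          rw [← ENNReal.ofReal_natCast]
          exact ENNReal.ofReal_le_ofReal hc1
      _ = ENNReal.ofReal (A1 * (CP * K ^ m * (CC * K ^ (2 * (m + 3)) *
          (CF * ((1 + K) ^ (N - (m + 3)))⁻¹) * CK))) * SX P (TF G) := by
          rw [← mul_assoc (ENNReal.ofReal (CP * K ^ m)), ← ENNReal.ofReal_mul (by positivity),
            ← mul_assoc, ← ENNReal.ofReal_mul hA10]
      _ ≤ _ := mul_le_mul_left (ENNReal.ofReal_le_ofReal hfin1) _
  -- second part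
  have htwo : ∀ p ∈ F, ∑ z ∈ X, Tm p (cb (K ^ 2) z) ≤
      ENNReal.ofReal (CC * K ^ (2 * (m + 3))) * W := by
    intro p hp
    rw [hF, Finset.mem_filter, hF0, Finset.mem_product, Fintype.mem_piFinset,
      Fintype.mem_piFinset] at hp
    obtain ⟨⟨hp1, hp2⟩, hp3⟩ := hp
    refine (hcell K X (Tm p) hK hX).trans (mul_le_mul_right ?_ _)
    have hinj : ∀ j j' : Zi m, j ≠ j' → 1 ≤ ‖K ^ 2 • zc j - K ^ 2 • zc j'‖ := by
      intro j j' hjj
      rw [← smul_sub, norm_smul, Real.norm_of_nonneg (by positivity)]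
      exact one_le_mul_of_one_le_of_one_le (one_le_pow₀ hK) (zc_sep j j' hjj)
    have hinj2 : Set.InjOn (fun j : Zi m => K ^ 2 • zc j) (X.image (cb (K ^ 2)) : Set (Zi m)) := by
      intro j _ j' _ hjj
      by_contra hne
      have h1 := hinj j j' hne
      change K ^ 2 • zc j = K ^ 2 • zc j' at hjj
      rw [hjj, sub_self, norm_zero] at h1
      linarith
    have hsepY : Sep ((X.image (cb (K ^ 2))).image fun j : Zi m => K ^ 2 • zc j) := by
      intro z hz z' hz' hne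
      rw [Finset.mem_image] at hz hz'
      obtain ⟨j, -, rfl⟩ := hz
      obtain ⟨j', -, rfl⟩ := hz'
      refine hinj j j' ?_
      rintro rfl
      exact hne rfl
    have h1 := hW p.1 hp1 hp3 (fun i => c • zc (p.2 i)) (fun i => by
      rw [norm_smul, Real.norm_of_nonneg hc.le]
      have h2 := hp2 i
      rw [hL, Set.Finite.mem_toFinset] at h2
      have h3 : c * ‖zc (p.2 i)‖ ≤ c * (CQ * K * K ^ 2) := mul_le_mul_of_nonneg_left h2 hc.le
      have h4 : 0 ≤ A2 * (F₀.card * (CC * K ^ (2 * (m + 3)))) := by positivity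
      linarith) _ hsepY
    rw [Finset.sum_image hinj2] at h1
    exact h1
  have hpart2 : ENNReal.ofReal A2 * ∑ p ∈ F, ∑ z ∈ X, Tm p (cb (K ^ 2) z) ≤
      ENNReal.ofReal (1 + c * (CQ * K * K ^ 2) + A2 * (F₀.card * (CC * K ^ (2 * (m + 3))))) *
        W := by
    calc _ ≤ ENNReal.ofReal A2 * ∑ p ∈ F, ENNReal.ofReal (CC * K ^ (2 * (m + 3))) * W :=
          mul_le_mul_right (Finset.sum_le_sum htwo) _
      _ ≤ ENNReal.ofReal A2 * ∑ p ∈ F₀, ENNReal.ofReal (CC * K ^ (2 * (m + 3))) * W :=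
          mul_le_mul_right (Finset.sum_le_sum_of_subset (Finset.filter_subset _ _)) _
      _ = ENNReal.ofReal (A2 * (F₀.card * (CC * K ^ (2 * (m + 3))))) * W := by
          have hcast : ((F₀.card : ℕ) : ℝ≥0∞) = ENNReal.ofReal ((F₀.card : ℕ) : ℝ) :=
            (ENNReal.ofReal_natCast _).symm
          rw [Finset.sum_const, nsmul_eq_mul, hcast, ← mul_assoc, ← mul_assoc,
            ← ENNReal.ofReal_mul hA20, ← ENNReal.ofReal_mul (by positivity), ← mul_assoc A2]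
      _ ≤ _ := by
          refine mul_le_mul_left (ENNReal.ofReal_le_ofReal ?_) _
          have : 0 ≤ c * (CQ * K * K ^ 2) := by positivity
          linarith
  calc ∑ z ∈ X, ‖TF G z‖ₑ ^ P ≤ ∑ z ∈ X,
        (ENNReal.ofReal A1 * ∑ k ∈ Ks m K⁻¹, aw N K K (uk β K G k) (cb (K ^ 2) z) ^ P +
        ENNReal.ofReal A2 * ∑ p ∈ F, Tm p (cb (K ^ 2) z)) := Finset.sum_le_sum hpt
    _ = ENNReal.ofReal A1 * ∑ k ∈ Ks m K⁻¹, ∑ z ∈ X,
          aw N K K (uk β K G k) (cb (K ^ 2) z) ^ P +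
        ENNReal.ofReal A2 * ∑ p ∈ F, ∑ z ∈ X, Tm p (cb (K ^ 2) z) := by
        rw [Finset.sum_add_distrib, ← Finset.mul_sum, ← Finset.mul_sum, Finset.sum_comm,
          Finset.sum_comm (s := X) (t := F)]
    _ ≤ _ := add_le_add hpart1 hpart2

end Pool.Agent.H5.G4.PTC
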