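import Pool.Agent.H82.G4.Targets

/-!
# Weighted suprema are attained at lattice points
-/

set_option autoImplicit false

namespace Pool.Agent.H5.G4.QNT

open MeasureTheory Set Pool.Agent.H83.G Pool.Agent.H82.G4
open scoped ENNReal NNReal RealInnerProductSpace

private theorem norm_e (x : ℝ) : ‖e x‖ = 1 := by
  unfold e
  exact Complex.norm_exp_ofReal_mul_I _

private theorem e_add (x y : ℝ) : e (x + y) = e x * e y := by
  unfold e
  rw [← Complex.exp_add]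
  congr 1
  push_cast
  ring

private theorem continuous_e : Continuous e := by
  unfold e
  fun_prop

private theorem wt_nonneg {m : ℕ} (N : ℕ) (z : Z m) : 0 ≤ wt N z := by
  unfold wt
  positivity

private theorem wt_pos {m : ℕ} (N : ℕ) (z : Z m) : 0 < wt N z := by
  unfold wt
  positivity

private theorem wt_neg {m : ℕ} (N : ℕ) (z : Z m) : wt N (-z) = wt N z := by
  unfold wt
  rw [norm_neg]

private theorem continuous_ph {m : ℕ} : Continuous (fun p : Z m × Z m => ph p.1 p.2) := by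
  unfold ph
  fun_prop

private theorem ph_sub {m : ℕ} (z z' ζ : Z m) : ph (z - z') ζ = ph z ζ + -(ph z' ζ) := by
  unfold ph
  simp only [Prod.fst_sub, Prod.snd_sub, inner_sub_left]
  ring

/-- reproducing formula -/
private theorem repro {m : ℕ} (hIVZ : T_IVZ) (G Φ : Z m → ℂ) (hG : TC G) (hΦ : TC Φ)
    (h : ∀ ζ, G ζ ≠ 0 → Φ ζ = 1) (z : Z m) :
    TF G z = ∫ z', TF Φ (z - z') * TF G z' := by
  obtain ⟨hI, hinv⟩ := hIVZ m G hG
  have hΦi : Integrable Φ := hΦ.1.continuous.integrable_of_hasCompactSupport hΦ.2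
  have h1 : ∀ ζ, G ζ = Φ ζ * ∫ z', e (-(ph z' ζ)) * TF G z' := by
    intro ζ
    rw [hinv]
    by_cases h0 : G ζ = 0
    · rw [h0, mul_zero]
    · rw [h ζ h0, one_mul]
  have hprod : Integrable (Function.uncurry fun ζ z' : Z m =>
      e (ph (z - z') ζ) * (Φ ζ * TF G z')) (volume.prod volume) := by
    have h2 : Integrable (fun p : Z m × Z m => Φ p.1 * TF G p.2) (volume.prod volume) :=
      hΦi.mul_prod hI
    refine h2.bdd_mul (c := 1) ?_ ?_
    · refine Continuous.aestronglyMeasurable ?_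
      exact continuous_e.comp (continuous_ph.comp (by fun_prop :
        Continuous fun p : Z m × Z m => (z - p.2, p.1)))
    · exact Filter.Eventually.of_forall fun p => (norm_e _).le
  have h3 : TF G z = ∫ ζ, ∫ z', e (ph (z - z') ζ) * (Φ ζ * TF G z') := by
    unfold TF
    refine integral_congr_ae (Filter.Eventually.of_forall fun ζ => ?_)
    change e (ph z ζ) * G ζ = ∫ z', e (ph (z - z') ζ) * (Φ ζ * TF G z')
    rw [h1 ζ, ← mul_assoc, ← integral_const_mul]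
    refine integral_congr_ae (Filter.Eventually.of_forall fun z' => ?_)
    change e (ph z ζ) * Φ ζ * (e (-(ph z' ζ)) * TF G z') =
      e (ph (z - z') ζ) * (Φ ζ * TF G z')
    rw [ph_sub, e_add]
    ring
  rw [h3, integral_integral_swap hprod]
  refine integral_congr_ae (Filter.Eventually.of_forall fun z' => ?_)
  change ∫ ζ, e (ph (z - z') ζ) * (Φ ζ * TF G z') = TF Φ (z - z') * TF G z'
  have h4 : TF Φ (z - z') = ∫ ζ, e (ph (z - z') ζ) * Φ ζ := rfl
  rw [h4, ← integral_mul_const]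
  refine integral_congr_ae (Filter.Eventually.of_forall fun ζ => ?_)
  change e (ph (z - z') ζ) * (Φ ζ * TF G z') = e (ph (z - z') ζ) * Φ ζ * TF G z'
  ring

/-- a cutoff function -/
private theorem exists_cut (m : ℕ) (D : ℝ) : ∃ Φ : Z m → ℂ, TC Φ ∧ ∀ ζ, ‖ζ‖ ≤ D → Φ ζ = 1 := by
  let f : ContDiffBump (0 : Z m) := ⟨|D| + 1, |D| + 2, by positivity, by linarith⟩
  refine ⟨fun ζ => ((f ζ : ℝ) : ℂ), ⟨?_, ?_⟩, ?_⟩
  · exact Complex.ofRealCLM.contDiff.comp f.contDiff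
  · exact f.hasCompactSupport.comp_left (g := fun x : ℝ => (x : ℂ)) (by simp)
  · intro ζ hζ
    have h1 : f ζ = 1 := f.one_of_mem_closedBall (by
      rw [mem_closedBall_zero_iff]
      change ‖ζ‖ ≤ |D| + 1
      linarith [le_abs_self D])
    change ((f ζ : ℝ) : ℂ) = 1
    rw [h1]
    simp

private theorem ph_add_smul {m : ℕ} (v y ζ : Z m) (t : ℝ) :
    ph (v + t • y) ζ = ph v ζ + t * ph y ζ := by
  unfold ph
  simp only [Prod.fst_add, Prod.snd_add, Prod.smul_fst, Prod.smul_snd, inner_add_left,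
    inner_smul_left, smul_eq_mul]
  simp only [conj_trivial]
  ring

private theorem ph_eq {m : ℕ} (y ζ : Z m) :
    ph y ζ = y.1 * ζ.1 + (∑ i, y.2.1 i * ζ.2.1 i) + y.2.2 * ζ.2.2 := by
  unfold ph
  rw [PiLp.inner_apply]
  have h : ∀ i, inner ℝ (y.2.1 i) (ζ.2.1 i) = y.2.1 i * ζ.2.1 i := by
    intro i
    simp [mul_comm]
  simp only [h]

/-- derivative of `TF` along a line -/
private theorem deriv_TF {m : ℕ} (Φ : Z m → ℂ) (hΦ : TC Φ) (v y : Z m) (t : ℝ) :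
    HasDerivAt (fun t : ℝ => TF Φ (v + t • y))
      (∫ ζ : Z m, e (ph (v + t • y) ζ) * ((2 * Real.pi * ph y ζ : ℝ) * Complex.I * Φ ζ)) t := by
  have hc : Continuous Φ := hΦ.1.continuous
  have hcp : Continuous fun ζ : Z m => ph y ζ :=
    continuous_ph.comp (by fun_prop : Continuous fun ζ : Z m => (y, ζ))
  have hce : ∀ s : ℝ, Continuous fun ζ : Z m => e (ph (v + s • y) ζ) := fun s =>
    continuous_e.comp (continuous_ph.comp (by fun_prop : Continuous fun ζ : Z m => (v + s • y, ζ)))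
  have hcs : HasCompactSupport fun ζ => ((2 * Real.pi * ph y ζ : ℝ) : ℂ) * Complex.I * Φ ζ :=
    hΦ.2.mul_left
  have hcc : Continuous fun ζ => ((2 * Real.pi * ph y ζ : ℝ) : ℂ) * Complex.I * Φ ζ := by
    fun_prop
  refine (hasDerivAt_integral_of_dominated_loc_of_deriv_le (μ := volume) (𝕜 := ℝ)
    (F := fun (s : ℝ) (ζ : Z m) => e (ph (v + s • y) ζ) * Φ ζ)
    (F' := fun (s : ℝ) (ζ : Z m) =>
      e (ph (v + s • y) ζ) * ((2 * Real.pi * ph y ζ : ℝ) * Complex.I * Φ ζ))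
    (bound := fun ζ => ‖((2 * Real.pi * ph y ζ : ℝ) : ℂ) * Complex.I * Φ ζ‖)
    (Metric.ball_mem_nhds t one_pos) ?_ ?_ ?_ ?_ ?_ ?_).2
  · exact Filter.Eventually.of_forall fun s => ((hce s).mul hc).aestronglyMeasurable
  · exact ((hce t).mul hc).integrable_of_hasCompactSupport hΦ.2.mul_left
  · exact ((hce t).mul hcc).aestronglyMeasurable
  · refine Filter.Eventually.of_forall fun ζ s _ => ?_
    change ‖e (ph (v + s • y) ζ) * _‖ ≤ _
    rw [norm_mul, norm_e, one_mul]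
  · exact (hcc.integrable_of_hasCompactSupport hcs).norm
  · refine Filter.Eventually.of_forall fun ζ s _ => ?_
    have h1 : HasDerivAt (fun s : ℝ => ph (v + s • y) ζ) (ph y ζ) s := by
      have h2 : (fun s : ℝ => ph (v + s • y) ζ) = fun s => ph v ζ + s * ph y ζ := by
        funext s
        exact ph_add_smul _ _ _ _
      rw [h2]
      simpa using ((hasDerivAt_id s).mul_const (ph y ζ)).const_add (ph v ζ)
    have h3 : HasDerivAt (fun s : ℝ => (((2 * Real.pi * ph (v + s • y) ζ : ℝ) : ℂ)) * Complex.I)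
        (((2 * Real.pi * ph y ζ : ℝ) : ℂ) * Complex.I) s :=
      ((h1.const_mul (2 * Real.pi)).ofReal_comp).mul_const Complex.I
    have h4 := (h3.cexp).mul_const (Φ ζ)
    change HasDerivAt (fun s : ℝ => Complex.exp ((((2 * Real.pi * ph (v + s • y) ζ : ℝ) : ℂ)) *
      Complex.I) * Φ ζ) (e (ph (v + s • y) ζ) *
        ((2 * Real.pi * ph y ζ : ℝ) * Complex.I * Φ ζ)) s
    have h5 : e (ph (v + s • y) ζ) * ((2 * Real.pi * ph y ζ : ℝ) * Complex.I * Φ ζ) =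
        Complex.exp ((((2 * Real.pi * ph (v + s • y) ζ : ℝ) : ℂ)) * Complex.I) *
          (((2 * Real.pi * ph y ζ : ℝ) : ℂ) * Complex.I) * Φ ζ := by
      unfold e
      ring
    rw [h5]
    exact h4

private theorem wt_shift {m : ℕ} (N : ℕ) (v w : Z m) (hw : ‖w‖ ≤ 1) :
    wt N (v + w) ≤ 2 ^ N * wt N v := by
  unfold wt
  have h1 : 1 + ‖v‖ ≤ 2 * (1 + ‖v + w‖) := by
    have h2 : ‖v‖ ≤ ‖v + w‖ + ‖w‖ := by
      have h3 : v = (v + w) - w := by abel
      calc ‖v‖ = ‖(v + w) - w‖ := by rw [← h3]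
        _ ≤ _ := norm_sub_le _ _
    linarith [norm_nonneg (v + w)]
  have h4 : (1 + ‖v‖) ^ N ≤ 2 ^ N * (1 + ‖v + w‖) ^ N := by
    rw [← mul_pow]
    exact pow_le_pow_left₀ (by positivity) h1 N
  have h5 : 0 < (1 + ‖v‖) ^ N := by positivity
  have h6 : 0 < (1 + ‖v + w‖) ^ N := by positivity
  rw [inv_eq_one_div, ← div_eq_mul_inv, div_le_div_iff₀ h6 h5]
  linarith

/-- the increments of `TF Φ` -/
private theorem incr {m : ℕ} (hSCH : T_SCH) (Φ : Z m → ℂ) (hΦ : TC Φ) (N : ℕ) :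
    ∃ C : ℝ, 0 < C ∧ ∀ v y : Z m, ‖y‖ ≤ 1 →
      ‖TF Φ (v + y) - TF Φ v‖ ≤ C * ‖y‖ * wt N v := by
  have tc1 : TC fun ζ : Z m => ((ζ.1 : ℝ) : ℂ) * Φ ζ :=
    ⟨(Complex.ofRealCLM.contDiff.comp contDiff_fst).mul hΦ.1, hΦ.2.mul_left⟩
  have tc2 : TC fun ζ : Z m => ((ζ.2.2 : ℝ) : ℂ) * Φ ζ :=
    ⟨(Complex.ofRealCLM.contDiff.comp (contDiff_snd.comp contDiff_snd)).mul hΦ.1, hΦ.2.mul_left⟩
  have tc3 : ∀ i, TC fun ζ : Z m => ((ζ.2.1 i : ℝ) : ℂ) * Φ ζ := fun i =>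
    ⟨(Complex.ofRealCLM.contDiff.comp (by fun_prop : ContDiff ℝ (⊤ : ℕ∞)
      fun ζ : Z m => ζ.2.1 i)).mul hΦ.1, hΦ.2.mul_left⟩
  obtain ⟨C1, hC1, h1⟩ := (hSCH m _ tc1).2 N
  obtain ⟨C2, hC2, h2⟩ := (hSCH m _ tc2).2 N
  choose C3 hC3 h3 using fun i => (hSCH m _ (tc3 i)).2 N
  refine ⟨2 * Real.pi * (C1 + (∑ i, C3 i) + C2) * 2 ^ N, ?_, ?_⟩
  · have : 0 ≤ ∑ i, C3 i := Finset.sum_nonneg fun i _ => (hC3 i).le
    have := Real.pi_pos
    positivity
  intro v y hy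
  have hint : ∀ (f : Z m → ℂ), TC f → ∀ w : Z m, Integrable fun ζ => e (ph w ζ) * f ζ := by
    intro f hf w
    refine Continuous.integrable_of_hasCompactSupport ?_ hf.2.mul_left
    exact (continuous_e.comp (continuous_ph.comp (by fun_prop :
      Continuous fun ζ : Z m => (w, ζ)))).mul hf.1.continuous
  have hD : ∀ t : ℝ, (∫ ζ : Z m, e (ph (v + t • y) ζ) *
      ((2 * Real.pi * ph y ζ : ℝ) * Complex.I * Φ ζ)) =
      (2 * Real.pi : ℝ) * Complex.I * ((y.1 : ℂ) * TF (fun ζ : Z m => ((ζ.1 : ℝ) : ℂ) * Φ ζ)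
        (v + t • y) + (∑ i, (y.2.1 i : ℂ) * TF (fun ζ : Z m => ((ζ.2.1 i : ℝ) : ℂ) * Φ ζ)
        (v + t • y)) + (y.2.2 : ℂ) * TF (fun ζ : Z m => ((ζ.2.2 : ℝ) : ℂ) * Φ ζ)
        (v + t • y)) := by
    intro t
    unfold TF
    have i1 := hint _ tc1 (v + t • y)
    have i2 := hint _ tc2 (v + t • y)
    have i3 := fun i => hint _ (tc3 i) (v + t • y)
    simp only [← integral_const_mul]
    rw [← integral_finsetSum _ (fun i _ => (i3 i).const_mul _),
      ← integral_add (i1.const_mul _) (integrable_finsetSum _ fun i _ => (i3 i).const_mul _)]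
    have i4 : Integrable fun a : Z m => (y.1 : ℂ) * (e (ph (v + t • y) a) *
        (((a.1 : ℝ) : ℂ) * Φ a)) + ∑ i, (y.2.1 i : ℂ) * (e (ph (v + t • y) a) *
        (((a.2.1 i : ℝ) : ℂ) * Φ a)) :=
      (i1.const_mul _).add (integrable_finsetSum _ fun i _ => (i3 i).const_mul _)
    rw [← integral_add i4 (i2.const_mul _), ← integral_const_mul]
    refine integral_congr_ae (Filter.Eventually.of_forall fun ζ => ?_)
    change e (ph (v + t • y) ζ) * ((2 * Real.pi * ph y ζ : ℝ) * Complex.I * Φ ζ) =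
      (2 * Real.pi : ℝ) * Complex.I * ((y.1 : ℂ) * (e (ph (v + t • y) ζ) * (((ζ.1 : ℝ) : ℂ) * Φ ζ))
        + (∑ i, (y.2.1 i : ℂ) * (e (ph (v + t • y) ζ) * (((ζ.2.1 i : ℝ) : ℂ) * Φ ζ))) +
        (y.2.2 : ℂ) * (e (ph (v + t • y) ζ) * (((ζ.2.2 : ℝ) : ℂ) * Φ ζ)))
    have h6 : (∑ i, (y.2.1 i : ℂ) * (e (ph (v + t • y) ζ) * (((ζ.2.1 i : ℝ) : ℂ) * Φ ζ))) =
        (∑ i, (y.2.1 i : ℂ) * ((ζ.2.1 i : ℝ) : ℂ)) * (e (ph (v + t • y) ζ) * Φ ζ) := by
      rw [Finset.sum_mul]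
      exact Finset.sum_congr rfl fun i _ => by ring
    rw [h6, ph_eq y ζ]
    push_cast
    ring
  have hcoord1 : ‖(y.1 : ℂ)‖ ≤ ‖y‖ := by
    rw [Complex.norm_real]
    exact norm_fst_le y
  have hcoord2 : ‖(y.2.2 : ℂ)‖ ≤ ‖y‖ := by
    rw [Complex.norm_real]
    exact (norm_snd_le y.2).trans (norm_snd_le y)
  have hcoord3 : ∀ i, ‖(y.2.1 i : ℂ)‖ ≤ ‖y‖ := by
    intro i
    rw [Complex.norm_real]
    exact (PiLp.norm_apply_le y.2.1 i).trans ((norm_fst_le y.2).trans (norm_snd_le y))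
  have hb : ∀ t ∈ Ico (0 : ℝ) 1, ‖∫ ζ : Z m, e (ph (v + t • y) ζ) *
      ((2 * Real.pi * ph y ζ : ℝ) * Complex.I * Φ ζ)‖ ≤
      2 * Real.pi * (C1 + (∑ i, C3 i) + C2) * 2 ^ N * ‖y‖ * wt N v := by
    intro t ht
    rw [hD t]
    have hw : wt N (v + t • y) ≤ 2 ^ N * wt N v := by
      refine wt_shift N v (t • y) ?_
      rw [norm_smul, Real.norm_eq_abs, abs_of_nonneg ht.1]
      calc t * ‖y‖ ≤ 1 * 1 := mul_le_mul ht.2.le hy (norm_nonneg _) (by norm_num)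
        _ = 1 := one_mul _
    rw [norm_mul, norm_mul, Complex.norm_I, mul_one, Complex.norm_real,
      Real.norm_of_nonneg (by positivity)]
    have e1 : ∀ (c : ℂ) (f : Z m → ℂ) (B : ℝ), 0 < B → ‖c‖ ≤ ‖y‖ → (∀ z, ‖TF f z‖ ≤ B * wt N z) →
        ‖c * TF f (v + t • y)‖ ≤ ‖y‖ * (B * (2 ^ N * wt N v)) := by
      intro c f B hB hc hf
      rw [norm_mul]
      refine mul_le_mul hc ((hf _).trans (mul_le_mul_of_nonneg_left hw hB.le))
        (norm_nonneg _) (norm_nonneg _)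
    have e2 : ‖∑ i, (y.2.1 i : ℂ) * TF (fun ζ : Z m => ((ζ.2.1 i : ℝ) : ℂ) * Φ ζ) (v + t • y)‖ ≤
        ∑ i, ‖y‖ * (C3 i * (2 ^ N * wt N v)) := by
      refine (norm_sum_le _ _).trans (Finset.sum_le_sum fun i _ => ?_)
      exact e1 _ _ _ (hC3 i) (hcoord3 i) (h3 i)
    have e3 := e1 _ _ _ hC1 hcoord1 h1
    have e4 := e1 _ _ _ hC2 hcoord2 h2
    have e5 : ∑ i, ‖y‖ * (C3 i * (2 ^ N * wt N v)) = ‖y‖ * ((∑ i, C3 i) * (2 ^ N * wt N v)) := by
      rw [← Finset.mul_sum, Finset.sum_mul]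
    rw [e5] at e2
    have e6 := (norm_add₃_le (a := (y.1 : ℂ) * TF (fun ζ : Z m => ((ζ.1 : ℝ) : ℂ) * Φ ζ)
      (v + t • y)) (b := ∑ i, (y.2.1 i : ℂ) * TF (fun ζ : Z m => ((ζ.2.1 i : ℝ) : ℂ) * Φ ζ)
      (v + t • y)) (c := (y.2.2 : ℂ) * TF (fun ζ : Z m => ((ζ.2.2 : ℝ) : ℂ) * Φ ζ) (v + t • y)))
    have h2p : 0 ≤ 2 * Real.pi := by positivity
    calc _ ≤ 2 * Real.pi * (‖y‖ * (C1 * (2 ^ N * wt N v)) +
          ‖y‖ * ((∑ i, C3 i) * (2 ^ N * wt N v)) + ‖y‖ * (C2 * (2 ^ N * wt N v))) := by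
            refine mul_le_mul_of_nonneg_left ?_ h2p
            linarith
      _ = _ := by ring
  have h7 := norm_image_sub_le_of_norm_deriv_le_segment_01'
    (f := fun t : ℝ => TF Φ (v + t • y))
    (f' := fun t => ∫ ζ : Z m, e (ph (v + t • y) ζ) *
      ((2 * Real.pi * ph y ζ : ℝ) * Complex.I * Φ ζ))
    (C := 2 * Real.pi * (C1 + (∑ i, C3 i) + C2) * 2 ^ N * ‖y‖ * wt N v)
    (fun t _ => (deriv_TF Φ hΦ v y t).hasDerivWithinAt) hb
  simpa using h7

theorem pf_QNT (hIVZ : T_IVZ) (hSCH : T_SCH) (hWT1 : T_WT1) (hWT2 : T_WT2) (hWT3 : T_WT3) :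
    T_QNT := by
  intro m N D₀
  obtain ⟨Φ, hΦ, hΦ1⟩ := exists_cut m D₀
  obtain ⟨C1, hC1, hinc⟩ := incr hSCH Φ hΦ (N + (m + 3))
  obtain ⟨C2, hW, _⟩ := hWT2 m (m + 3) le_rfl
  obtain ⟨-, -, -, -, -, hadd, hscale⟩ := hWT1 m N
  obtain ⟨-, -, hmulw, -⟩ := hWT1 m N
  obtain ⟨-, -, -, -, -, hlat⟩ := hWT3 m (m + 3) le_rfl
  have hm : (0 : ℝ) < (m : ℝ) + 1 := by positivity
  -- increments
  have key : ∀ (K a : ℝ) (G : Z m → ℂ) (x : Z m), 1 ≤ K → 0 ≤ a → TC G →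
      (∀ ζ, G ζ ≠ 0 → ‖ζ‖ ≤ D₀) → (∀ z, ‖TF G z‖ * wt N (K⁻¹ ^ 2 • z - x) ≤ a) →
      ∀ z y : Z m, ‖y‖ ≤ 1 →
      ‖TF G (z + y) - TF G z‖ * wt N (K⁻¹ ^ 2 • z - x) ≤ C1 * C2 * ‖y‖ * a := by
    intro K a G x hK ha hG hGD hGa z y hy
    set w : ℝ := wt N (K⁻¹ ^ 2 • z - x) with hw
    have hw0 : 0 < w := wt_pos _ _
    have hK0 : 0 < K := by linarith
    have hKi : 0 < K⁻¹ ^ 2 := by positivity
    have hKi1 : K⁻¹ ^ 2 ≤ 1 := by
      have : K⁻¹ ≤ 1 := inv_le_one_of_one_le₀ hK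
      exact pow_le_one₀ (by positivity) this
    have hr1 := repro hIVZ G Φ hG hΦ (fun ζ hζ => hΦ1 ζ (hGD ζ hζ)) (z + y)
    have hr2 := repro hIVZ G Φ hG hΦ (fun ζ hζ => hΦ1 ζ (hGD ζ hζ)) z
    have hIG : Integrable (TF G) := (hIVZ m G hG).1
    have hcΦ : Continuous (TF Φ) := (hSCH m Φ hΦ).1
    obtain ⟨BΦ, hBΦ, hbΦ⟩ := (hSCH m Φ hΦ).2 0
    have hbΦ' : ∀ u : Z m, ‖TF Φ u‖ ≤ BΦ := fun u => by simpa [wt] using hbΦ u
    have hI : ∀ u : Z m, Integrable fun z' => TF Φ (u - z') * TF G z' := by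
      intro u
      refine hIG.bdd_mul (c := BΦ) ?_ (Filter.Eventually.of_forall fun z' => hbΦ' _)
      exact (hcΦ.comp (by fun_prop : Continuous fun z' : Z m => u - z')).aestronglyMeasurable
    have hdiff : TF G (z + y) - TF G z =
        ∫ z', (TF Φ ((z - z') + y) - TF Φ (z - z')) * TF G z' := by
      rw [hr1, hr2, ← integral_sub (hI _) (hI _)]
      refine integral_congr_ae (Filter.Eventually.of_forall fun z' => ?_)
      change TF Φ (z + y - z') * TF G z' - TF Φ (z - z') * TF G z' =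
        (TF Φ ((z - z') + y) - TF Φ (z - z')) * TF G z'
      have : z + y - z' = (z - z') + y := by abel
      rw [this]
      ring
    have hbd : ‖TF G (z + y) - TF G z‖ₑ ≤ ENNReal.ofReal (C1 * ‖y‖ * a / w) * C2 := by
      rw [hdiff]
      refine (enorm_integral_le_lintegral_enorm _).trans ?_
      have h3 : ∀ z' : Z m, ‖(TF Φ ((z - z') + y) - TF Φ (z - z')) * TF G z'‖ₑ ≤
          ENNReal.ofReal (C1 * ‖y‖ * a / w) * ENNReal.ofReal (wt (m + 3) ((1 : ℝ) • z' - z)) := by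
        intro z'
        rw [← ENNReal.ofReal_mul (by positivity), ← ofReal_norm]
        refine ENNReal.ofReal_le_ofReal ?_
        rw [norm_mul]
        have h4 := hinc (z - z') y hy
        have h5 := hGa z'
        have h6 : w * wt N (z - z') ≤ wt N (K⁻¹ ^ 2 • z' - x) := by
          have h7 := hmulw (K⁻¹ ^ 2 • z - x) (K⁻¹ ^ 2 • (z' - z))
          have h8 : K⁻¹ ^ 2 • z - x + K⁻¹ ^ 2 • (z' - z) = K⁻¹ ^ 2 • z' - x := by
            rw [smul_sub]
            abel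
          rw [h8] at h7
          refine le_trans ?_ h7
          refine mul_le_mul_of_nonneg_left ?_ hw0.le
          have h9 := (hscale (z' - z) (K⁻¹ ^ 2) hKi hKi1).1
          have h10 : wt N (z - z') = wt N (z' - z) := by
            rw [← wt_neg, neg_sub]
          rw [h10]
          exact h9
        have h11 : wt (N + (m + 3)) (z - z') = wt N (z - z') * wt (m + 3) (z - z') := hadd _ _
        have h12 : wt (m + 3) ((1 : ℝ) • z' - z) = wt (m + 3) (z - z') := by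
          rw [one_smul, ← wt_neg, neg_sub]
        rw [h12]
        have h13 : ‖TF G z'‖ * (w * wt N (z - z')) ≤ a :=
          (mul_le_mul_of_nonneg_left h6 (norm_nonneg _)).trans h5
        have h14 : ‖TF G z'‖ * wt N (z - z') ≤ a / w := by
          rw [le_div_iff₀ hw0]
          calc ‖TF G z'‖ * wt N (z - z') * w = ‖TF G z'‖ * (w * wt N (z - z')) := by ring
            _ ≤ a := h13
        calc ‖TF Φ ((z - z') + y) - TF Φ (z - z')‖ * ‖TF G z'‖
            ≤ C1 * ‖y‖ * wt (N + (m + 3)) (z - z') * ‖TF G z'‖ :=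
              mul_le_mul_of_nonneg_right h4 (norm_nonneg _)
          _ = C1 * ‖y‖ * wt (m + 3) (z - z') * (‖TF G z'‖ * wt N (z - z')) := by
              rw [h11]
              ring
          _ ≤ C1 * ‖y‖ * wt (m + 3) (z - z') * (a / w) :=
              mul_le_mul_of_nonneg_left h14 (by
                have := wt_nonneg (m + 3) (z - z')
                positivity)
          _ = C1 * ‖y‖ * a / w * wt (m + 3) (z - z') := by ring
      refine (lintegral_mono h3).trans ?_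
      have hmw : Measurable fun z' : Z m => ENNReal.ofReal (wt (m + 3) ((1 : ℝ) • z' - z)) := by
        refine Measurable.ennreal_ofReal ?_
        unfold wt
        fun_prop
      rw [lintegral_const_mul _ hmw]
      refine mul_le_mul_right ?_ _
      have h15 := hW 1 z one_pos
      simpa using h15
    have hC2 : ENNReal.ofReal (C1 * ‖y‖ * a / w) * C2 =
        ENNReal.ofReal (C1 * ‖y‖ * a / w * C2) := by
      rw [ENNReal.ofReal_mul (by positivity), ENNReal.ofReal_coe_nnreal]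
    rw [hC2, ← ofReal_norm, ENNReal.ofReal_le_ofReal_iff (by positivity)] at hbd
    calc ‖TF G (z + y) - TF G z‖ * w ≤ C1 * ‖y‖ * a / w * C2 * w :=
          mul_le_mul_of_nonneg_right hbd hw0.le
      _ = C1 * C2 * ‖y‖ * a := by field_simp
  -- constants
  set C' : ℝ := C1 * C2 with hC'
  have hC'0 : 0 ≤ C' := by positivity
  set c1 : ℝ := (4 * C' + 1)⁻¹ with hc1
  have hc10 : 0 < c1 := by positivity
  have hc11 : c1 ≤ 1 := inv_le_one_of_one_le₀ (by linarith)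
  have hc1C : C' * c1 ≤ 1 / 4 := by
    rw [hc1, ← div_eq_mul_inv, div_le_iff₀ (by positivity)]
    linarith
  set c : ℝ := c1 / ((m : ℝ) + 1) with hc
  have hc0 : 0 < c := by positivity
  refine ⟨c, 4 + c⁻¹ + ((m : ℝ) + 1), hc0, ?_, ?_⟩
  · have : 0 < c⁻¹ := by positivity
    linarith
  intro K D G j hK hD hG hGD
  have hK0 : 0 < K := by linarith
  set A : ℝ≥0∞ := aw N K 0 (TF G) j with hA
  have hterm : ∀ z : Z m, ‖TF G z‖ₑ * ENNReal.ofReal (wt N (K⁻¹ ^ 2 • z - zc j)) ≤ A := by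
    intro z
    rw [hA]
    unfold aw
    exact le_iSup₂_of_le z (norm_nonneg _) le_rfl
  have hAfin : A < ⊤ := by
    obtain ⟨B, hB, hb⟩ := (hSCH m G hG).2 0
    refine lt_of_le_of_lt (b := ENNReal.ofReal B) ?_ ENNReal.ofReal_lt_top
    rw [hA]
    unfold aw
    refine iSup₂_le fun z _ => ?_
    rw [← ofReal_norm, ← ENNReal.ofReal_mul (norm_nonneg _)]
    refine ENNReal.ofReal_le_ofReal ?_
    have h1 : ‖TF G z‖ ≤ B := by simpa [wt] using hb z
    have h2 : wt N (K⁻¹ ^ 2 • z - zc j) ≤ 1 := ((hWT1 m N).1 _).2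
    calc ‖TF G z‖ * wt N (K⁻¹ ^ 2 • z - zc j) ≤ B * 1 :=
          mul_le_mul h1 h2 (wt_nonneg _ _) hB.le
      _ = B := mul_one _
  by_cases hA0 : A = 0
  · left
    rw [hA0]
    exact zero_le
  have hhalf : A / 2 < A := ENNReal.half_lt_self hA0 hAfin.ne
  obtain ⟨z, hz⟩ : ∃ z : Z m, A / 2 < ‖TF G z‖ₑ * ENNReal.ofReal (wt N (K⁻¹ ^ 2 • z - zc j)) := by
    by_contra hcon
    push Not at hcon
    refine absurd hhalf (not_lt.mpr ?_)
    conv_lhs => rw [hA]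
    unfold aw
    exact iSup₂_le fun z _ => hcon z
  by_cases hzD : D ≤ ‖K⁻¹ ^ 2 • z - zc j‖
  · left
    have h1 : ‖TF G z‖ₑ * ENNReal.ofReal (wt N (K⁻¹ ^ 2 • z - zc j)) ≤ aw N K D (TF G) j := by
      unfold aw
      exact le_iSup₂_of_le z hzD le_rfl
    have h2 : A / 2 ≤ aw N K D (TF G) j := hz.le.trans h1
    have h3 : A = 2 * (A / 2) := (ENNReal.mul_div_cancel (by norm_num) (by norm_num)).symm
    rw [h3]
    exact mul_le_mul_right h2 2
  right
  push Not at hzD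
  have hzn : ‖z - K ^ 2 • zc j‖ ≤ D * K ^ 2 := by
    have h1 : z - K ^ 2 • zc j = K ^ 2 • (K⁻¹ ^ 2 • z - zc j) := by
      rw [smul_sub, smul_smul]
      have : K ^ 2 * K⁻¹ ^ 2 = 1 := by
        rw [← mul_pow, mul_inv_cancel₀ hK0.ne', one_pow]
      rw [this, one_smul]
    rw [h1, norm_smul, Real.norm_of_nonneg (by positivity), mul_comm]
    exact mul_le_mul_of_nonneg_right hzD.le (by positivity)
  obtain ⟨l, hl⟩ := hlat (c⁻¹ • (z - K ^ 2 • zc j))
  have hcl : c • (c⁻¹ • (z - K ^ 2 • zc j)) = z - K ^ 2 • zc j := by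
    rw [smul_smul, mul_inv_cancel₀ hc0.ne', one_smul]
  refine ⟨l, ?_, ?_⟩
  · have h1 : ‖zc l‖ ≤ ‖c⁻¹ • (z - K ^ 2 • zc j)‖ + ((m : ℝ) + 1) := by
      have h2 : zc l = c⁻¹ • (z - K ^ 2 • zc j) - (c⁻¹ • (z - K ^ 2 • zc j) - zc l) := by abel
      calc ‖zc l‖ = ‖c⁻¹ • (z - K ^ 2 • zc j) - (c⁻¹ • (z - K ^ 2 • zc j) - zc l)‖ := by
            rw [← h2]
        _ ≤ _ := norm_sub_le _ _
        _ ≤ _ := by linarith
    rw [norm_smul, Real.norm_of_nonneg (by positivity)] at h1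
    have h3 : c⁻¹ * ‖z - K ^ 2 • zc j‖ ≤ c⁻¹ * (D * K ^ 2) :=
      mul_le_mul_of_nonneg_left hzn (by positivity)
    have h4 : 1 ≤ D * K ^ 2 := by
      have : 1 ≤ K ^ 2 := one_le_pow₀ hK
      nlinarith
    have h5 : (m : ℝ) + 1 ≤ ((m : ℝ) + 1) * (D * K ^ 2) := le_mul_of_one_le_right hm.le h4
    calc ‖zc l‖ ≤ c⁻¹ * (D * K ^ 2) + ((m : ℝ) + 1) * (D * K ^ 2) := by linarith
      _ ≤ (4 + c⁻¹ + ((m : ℝ) + 1)) * (D * K ^ 2) := by
          have : 0 ≤ D * K ^ 2 := by linarith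
          nlinarith
      _ = (4 + c⁻¹ + ((m : ℝ) + 1)) * D * K ^ 2 := by ring
  · set y : Z m := K ^ 2 • zc j + c • zc l - z with hy
    have hyn : ‖y‖ ≤ c1 := by
      have h1 : y = -(c • (c⁻¹ • (z - K ^ 2 • zc j) - zc l)) := by
        rw [smul_sub, hcl, hy]
        abel
      rw [h1, norm_neg, norm_smul, Real.norm_of_nonneg hc0.le]
      calc c * ‖c⁻¹ • (z - K ^ 2 • zc j) - zc l‖ ≤ c * ((m : ℝ) + 1) :=
            mul_le_mul_of_nonneg_left hl hc0.le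
        _ = c1 := by
            rw [hc]
            field_simp
    have hzy : K ^ 2 • zc j + c • zc l = z + y := by
      rw [hy]
      abel
    rw [hzy]
    set a : ℝ := A.toReal with ha
    have haA : ENNReal.ofReal a = A := ENNReal.ofReal_toReal hAfin.ne
    have ha0 : 0 ≤ a := ENNReal.toReal_nonneg
    have hGa : ∀ z, ‖TF G z‖ * wt N (K⁻¹ ^ 2 • z - zc j) ≤ a := by
      intro z
      have h1 := hterm z
      rw [← ofReal_norm, ← ENNReal.ofReal_mul (norm_nonneg _), ← haA] at h1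
      exact (ENNReal.ofReal_le_ofReal_iff ha0).1 h1
    have hza : a / 2 ≤ ‖TF G z‖ * wt N (K⁻¹ ^ 2 • z - zc j) := by
      have h1 := hz.le
      rw [← ofReal_norm, ← ENNReal.ofReal_mul (norm_nonneg _), ← haA] at h1
      have h2 : ENNReal.ofReal a / 2 = ENNReal.ofReal (a / 2) := by
        rw [ENNReal.ofReal_div_of_pos (by norm_num)]
        norm_num
      rw [h2] at h1
      exact (ENNReal.ofReal_le_ofReal_iff
        (mul_nonneg (norm_nonneg _) (wt_nonneg _ _))).1 h1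
    have hk := key K a G (zc j) hK ha0 hG hGD hGa z y (hyn.trans hc11)
    set w : ℝ := wt N (K⁻¹ ^ 2 • z - zc j) with hw
    have hw0 : 0 < w := wt_pos _ _
    have hw1 : w ≤ 1 := ((hWT1 m N).1 _).2
    have hk2 : C' * ‖y‖ * a ≤ 1 / 4 * a := by
      refine mul_le_mul_of_nonneg_right ?_ ha0
      exact (mul_le_mul_of_nonneg_left hyn hC'0).trans hc1C
    have h3 : ‖TF G z‖ ≤ ‖TF G (z + y)‖ + ‖TF G (z + y) - TF G z‖ := by
      have h4 : TF G z = TF G (z + y) - (TF G (z + y) - TF G z) := by ring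
      calc ‖TF G z‖ = ‖TF G (z + y) - (TF G (z + y) - TF G z)‖ := by rw [← h4]
        _ ≤ _ := norm_sub_le _ _
    have h5 : ‖TF G z‖ * w ≤ ‖TF G (z + y)‖ * w + ‖TF G (z + y) - TF G z‖ * w := by
      rw [← add_mul]
      exact mul_le_mul_of_nonneg_right h3 hw0.le
    have h6 : ‖TF G (z + y)‖ * w ≤ ‖TF G (z + y)‖ := mul_le_of_le_one_right (norm_nonneg _) hw1
    have h7 : a ≤ 4 * ‖TF G (z + y)‖ := by linarith
    rw [← haA, ← ofReal_norm, ← ENNReal.ofReal_mul (by positivity)]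
    refine ENNReal.ofReal_le_ofReal (h7.trans ?_)
    refine mul_le_mul_of_nonneg_right ?_ (norm_nonneg _)
    have : 0 < c⁻¹ := by positivity
    linarith

end Pool.Agent.H5.G4.QNT
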